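import Pool.Agent.Y264.WB.Top

/-!
# Hereditarily non-extendable weak Borel probabilities on all spaces which contain `ℓ^∞`

Fremlin asked whether some probability on the weakly Borel subsets of `ℓ^∞` has no extension to the
norm Borel subsets; the starting file `WeakBorelNoExtension` gives such a probability. Here we prove
a stronger statement. Let `X` be any real normed space which contains an isomorphic copy of `ℓ^∞`
(`ℓ^∞` itself, `ℓ^∞ (Γ)`, `ℓ^∞ / c_0`, `C (βω)`, `L^∞ [0, 1]`, `B (H)`, the dual of every Banach space
which has `ℓ^1` as a quotient, ...). Then for every ball `B` of `X` there is a probability `μ` on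
`Bo (X, w)` which is concentrated on `B` and such that

* no non-zero part of `μ` can be extended: if `E` is weakly Borel and `μ E > 0`, then no measure on
  the norm Borel sets agrees with `F ↦ μ (F ∩ E)` on the weakly Borel sets;
* every norm separable set is contained in a closed linear subspace `L` with `μ L = 0`;
* `μ K = 0` for every weakly compact set `K` (so `μ` is as far as possible from a Radon measure).

Idea of the proof. An embedding `z ↦ x₀ + T z` of a Banach space is a closed embedding for the norm
topologies and for the weak topologies, so it transports the question in both directions. The first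
property is obtained by exhaustion: among the weakly Borel sets `A` such that the restriction of the
given probability to `A` extends there is one of maximal measure, and its complement has positive
measure. Norm Borel subsets of a separable closed subspace are weakly Borel, which gives the second
property, and weakly compact subsets of `ℓ^∞` are metrizable, hence norm separable, which gives the
third one first on `ℓ^∞` and then on `X`.
-/

set_option autoImplicit false

namespace Pool.Agent.Results.MP_2ac9e4_an.HereditarilyNonExtendable

open MeasureTheory Set
open scoped ENNReal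

/-- The sigma-algebra `Bo(X, w)` on a real normed space `X`, generated by the weakly open subsets of
`X`, that is, by the sets `U` whose image under the identity map `toWeakSpace` from `X` to the space
`WeakSpace ℝ X` (`X` with its weak topology) is open. -/
@[instance_reducible]
def weakBorel (X : Type) [NormedAddCommGroup X] [NormedSpace ℝ X] : MeasurableSpace X :=
  MeasurableSpace.generateFrom {U : Set X | IsOpen (toWeakSpace ℝ X '' U)}

/-- The Banach space `ℓ^∞` of the bounded real sequences with the supremum norm -/
def Linf : Type := lp (fun _ : ℕ => ℝ) ∞

/-- the norm of `ℓ^∞` is that of `lp (fun _ : ℕ => ℝ) ∞` -/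
@[instance_reducible]
noncomputable def linfNorm : NormedAddCommGroup Linf :=
  (inferInstance : NormedAddCommGroup (lp (fun _ : ℕ => ℝ) ∞))

attribute [instance] linfNorm

/-- the vector space structure of `ℓ^∞` is that of `lp (fun _ : ℕ => ℝ) ∞` -/
@[instance_reducible]
noncomputable def linfSpace : NormedSpace ℝ Linf :=
  (inferInstance : NormedSpace ℝ (lp (fun _ : ℕ => ℝ) ∞))

attribute [instance] linfSpace

/-- `X` contains an isomorphic copy of `ℓ^∞` -/
def ContainsLinf (X : Type) [NormedAddCommGroup X] [NormedSpace ℝ X] : Prop :=
  ∃ (T : Linf →L[ℝ] X) (c : ℝ), 0 < c ∧ ∀ z, c * ‖z‖ ≤ ‖T z‖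

section

variable {X : Type} [NormedAddCommGroup X] [NormedSpace ℝ X]

/-- no part of `μ` extends: for every `E` in `Bo(X, w)` of positive measure no measure on the norm
Borel sets agrees with `F ↦ μ (F ∩ E)` on `Bo(X, w)` -/
def NoPartExtends (μ : @Measure X (weakBorel X)) : Prop :=
  ∀ E : Set X, MeasurableSet[weakBorel X] E → μ E ≠ 0 →
    ∀ ν : @Measure X (borel X), ¬ ∀ F : Set X, MeasurableSet[weakBorel X] F → ν F = μ (F ∩ E)

/-- every norm separable set lies in a closed linear subspace of measure zero -/
def SeparableNull (μ : @Measure X (weakBorel X)) : Prop :=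
  ∀ S : Set X, TopologicalSpace.IsSeparable S →
    ∃ L : Submodule ℝ X, S ⊆ L ∧ IsClosed (L : Set X) ∧ μ L = 0

/-- weakly compact sets have measure zero -/
def CompactNull (μ : @Measure X (weakBorel X)) : Prop :=
  ∀ K : Set X, IsCompact (toWeakSpace ℝ X '' K) → μ K = 0

end

theorem result (X : Type) [NormedAddCommGroup X] [NormedSpace ℝ X] (hX : ContainsLinf X)
    (x₀ : X) (r : ℝ) (hr : 0 < r) :
    ∃ μ : @Measure X (weakBorel X), μ univ = 1 ∧ μ (Metric.closedBall x₀ r)ᶜ = 0 ∧
      NoPartExtends μ ∧ SeparableNull μ ∧ CompactNull μ := by
  obtain ⟨T, c, hc, hT⟩ := hX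
  exact Pool.Agent.Y264.WB.top X T hc hT x₀ hr

end Pool.Agent.Results.MP_2ac9e4_an.HereditarilyNonExtendable
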